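import Pool.Agent.H84.ClosC

namespace Pool.Agent.Results.MP_8829b8_gt.Q2No

open Pool.Agent.H84.Clos in
theorem result : ∃ (X Y Z : Type) (_ : TopologicalSpace X) (_ : TopologicalSpace Y)
    (_ : TopologicalSpace Z) (f : Y → Z), T35Space X ∧ T35Space Y ∧ T35Space Z ∧
      ParacompactSpace X ∧ NormalSpace (X × Y) ∧
      Continuous f ∧ IsClosedMap f ∧ Function.Surjective f ∧ ¬ NormalSpace (X × Z) :=
  haveI := para
  ⟨XX, YY, Z, inferInstance, inferInstance, inferInstance, ff, inferInstance, inferInstance,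
    inferInstance, para_XX, inferInstance, ff_cont, ff_closed, ff_surj, not_normal⟩

end Pool.Agent.Results.MP_8829b8_gt.Q2No
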